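import Mathlib

set_option autoImplicit false

/-!
The matrix form of the rooted tree statement (MP_a46c6f_co, target (C)): definitions.
`M` is a symmetric matrix over `ZMod 2` on `X`, the diagonal gives the colours (loops); the root is a
point of `X` with zero row.
-/

namespace Pool.Agent.H17.P3

variable {X : Type}

/-- every closed pair has a midpoint -/
def Pairs (M : X → X → ZMod 2) : Prop :=
  ∀ u v, M u u = M v v → M u v ≠ M u u →
    ∃ g, M g g ≠ M u u ∧ M g u = M g g ∧ M g v = M g g ∧ ∀ x, M u x = M v x → M g x = M u x

/-- an induced path `a - b - c - d` (for a symmetric matrix the four points are different) -/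
structure IsP4 (M : X → X → ZMod 2) (a b c d : X) : Prop where
  ab : M a b = 1
  bc : M b c = 1
  cd : M c d = 1
  ac : M a c = 0
  ad : M a d = 0
  bd : M b d = 0

/-- `g` sees exactly `{a, b}`, `{c, d}`, `{a, c}` or `{b, d}` -/
def Bad (M : X → X → ZMod 2) (a b c d g : X) : Prop := M g a ≠ M g d ∧ M g b ≠ M g c

/-- every induced path with the colours `0110` has a bad point which agrees with `a`, `b`, `c`, `d`
in every column in which these four agree -/
def P4Split (M : X → X → ZMod 2) : Prop :=
  ∀ a b c d, IsP4 M a b c d → M a a = 0 → M b b = 1 → M c c = 1 → M d d = 0 →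
    ∃ g, Bad M a b c d g ∧ ∀ y, M a y = M b y → M a y = M c y → M a y = M d y → M g y = M a y

/-- **the matrix statement** (P3) -/
def P3 : Prop :=
  ∀ (X : Type) [Finite X] (M : X → X → ZMod 2), (∀ x y, M x y = M y x) → Pairs M → P4Split M →
    ∀ a b c d, ¬ IsP4 M a b c d

end Pool.Agent.H17.P3
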