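import Pool.Agent.H17.P3.Defs
import Pool.Agent.H17.TR.KThree
import Pool.Agent.H32.AA.One

set_option autoImplicit false

/-!
Glue: the rooted tree theorem for codes from the matrix statement (P3), the code side and the tree
end (MP_a46c6f_co, target (C)).
-/

namespace Pool.Agent.H17.P3

open Pool.Agent.H98.Code Pool.Agent.H17.TR

/-- the code side -/
def CodeSide : Prop :=
  ∀ (V : Type) [Fintype V] [DecidableEq V] (L : Submodule (ZMod 2) (V → K)) (e : V)
    (H : V → V → ZMod 2), IsCode L → CritAt L e → IsMat L H →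
    ∃ M : V → V → ZMod 2, (∀ x y, M x y = M y x) ∧ (∀ x, M e x = 0) ∧
      (∀ u, u ≠ e → ∀ v, (∑ w, H u w * (M u v + M w v)) = if u = v then 1 else 0) ∧
      Pairs M ∧ P4Split M

/-- the tree end -/
def TreeEnd : Prop :=
  ∀ (V : Type) [Fintype V] [DecidableEq V] (e : V) (H M : V → V → ZMod 2),
    (∀ x y, H x y = H y x) → (∀ x y, M x y = M y x) → (∀ x, M e x = 0) →
    (∀ u, u ≠ e → ∀ v, (∑ w, H u w * (M u v + M w v)) = if u = v then 1 else 0) →
    Pairs M → (∀ a b c d, ¬ IsP4 M a b c d) → (GrH H).IsTree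

/-- the rooted tree theorem in matrix form -/
theorem rooted_tree_of (h1 : P3) (h2 : CodeSide) (h3 : TreeEnd) (V : Type) [Fintype V]
    [DecidableEq V] (L : Submodule (ZMod 2) (V → K)) (e : V) (H : V → V → ZMod 2) (hL : IsCode L)
    (hc : CritAt L e) (hH : IsMat L H) : (GrH H).IsTree := by
  obtain ⟨M, hs, he, hinv, hp, h4⟩ := h2 V L e H hL hc hH
  exact h3 V e H M hH.sym hs he hinv hp (h1 V M hs hp h4)

/-- the rooted tree theorem -/
theorem hT_of (h1 : P3) (h2 : CodeSide) (h3 : TreeEnd) : ∀ (X : Type) [Fintype X] [DecidableEq X]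
    (B : Submodule (ZMod 2) (X → K)) (r : X), IsCode B → NoZ B → CritAt B r →
    (graph B).IsTree := by
  intro X _ _ B r hB hz hc
  obtain ⟨H, hs, hm⟩ := exists_matrix hB hz
  have hH : IsMat B H := ⟨hs, hm⟩
  have hH' : Pool.Agent.H32.AA.IsMat B H := ⟨hs, hm⟩
  have heq : graph B = GrH H := by
    ext v w
    rw [Pool.Agent.H32.AA.adj_iff hH', hH.adj]
  rw [heq]
  exact rooted_tree_of h1 h2 h3 X B r H hB hc hH

end Pool.Agent.H17.P3
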