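import Pool.Agent.H17.P3.Glue
import Pool.Agent.H26.P3.Tree

set_option autoImplicit false

/-!
The tree end of the matrix form, from `Pool.Agent.H26.P3` (MP_a46c6f_co, target (C)).
-/

namespace Pool.Agent.H17.P3

open Pool.Agent.H98.Code Pool.Agent.H17.TR

theorem tree_end : TreeEnd := by
  intro V _ _ e H M hH hM he hinv hp h4
  refine Pool.Agent.H26.P3.tree_of_p4free (r := e) (H := H) (M := M)
    ⟨hH, hM, he, hinv, fun u v _ h1 h2 => hp u v h1 h2, ?_⟩ (GrH H) ?_
  · intro a b c d h1 h2 h3 h5 h6 h7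
    exact h4 a b c d ⟨h1, h2, h3, h5, h6, h7⟩
  · intro u v
    unfold GrH
    rw [SimpleGraph.fromRel_adj, hH v u, or_self]

end Pool.Agent.H17.P3
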